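import Mathlib
import Pool.Agent.D0H41.SG.Stm
import Pool.Agent.D0H87.SF.FAM

/-!
# Project SG, module FAMG: a large family of polynomials near a given one
-/

set_option autoImplicit false

open Polynomial

namespace Pool.Agent.D0H87.SG

open Pool.Agent.D0H41.SF Pool.Agent.D0H41.SG Pool.Agent.D0H87.SF.CO Pool.Agent.D0H87.SF.FAM

/-- The polynomials for a fixed pair. -/
theorem fiber' {n k q : ℕ} (hk : 2 ≤ k) (hn : 2 * k ≤ n) (hq : 1 ≤ q) (a0 : Fin (n - 1) → ℤ)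
    (C₁ : ℝ) (hC₁ : 0 < C₁)
    (V r : ℕ) (m : ℤ) (hV : 1 ≤ V) (hcop : IsCoprime (q : ℤ) (r : ℤ))
    (hB : ∀ s t : ℤ, ∃ B : Finset (Fin (2 * k - 1) → ℤ),
      V ^ ((k - 2) * (n + 1 - k)) ≤ 64 * B.card ∧
      ∀ b ∈ B, (∀ i, |((b i : ℤ) : ℝ)| ≤ C₁ * (V : ℝ) ^ (2 * (n - (i : ℕ)))) ∧
        (r : ℤ) ^ 2 ∣ ev b m - s ∧ (r : ℤ) ∣ dv b m - t) :
    ∃ A : Finset (Fin (n - 1) → ℤ),
      V ^ ((n + 1 - 2 * k) * (n + 2 - 2 * k) - 2 + (k - 2) * (n + 1 - k)) ≤ 64 * A.card ∧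
      ∀ a ∈ A, (∀ i, |((a i - a0 i : ℤ) : ℝ)| ≤ (q * (C₁ + 1)) * (V : ℝ) ^ (2 * (n - (i : ℕ)))) ∧
        (∀ i, (q : ℤ) ∣ a i - a0 i) ∧ (r : ℤ) ^ 2 ∣ (pol n a).eval m ∧
        (r : ℤ) ∣ (derivative (pol n a)).eval m := by
  classical
  have hsol : ∀ (F : ℤ) (R : ℤ), IsCoprime (q : ℤ) R → ∃ s : ℤ, R ∣ (q : ℤ) * s + F := by
    rintro F R ⟨u, v, huv⟩
    refine ⟨-F * u, F * v, ?_⟩
    linear_combination -F * huv
  have hs : ∀ c : Fin (n - 1) → ℤ, ∃ s : ℤ,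
      (r : ℤ) ^ 2 ∣ (q : ℤ) * s + (pol n (a0 + (q : ℤ) • c)).eval m :=
    fun c => hsol _ _ hcop.pow_right
  have ht : ∀ c : Fin (n - 1) → ℤ, ∃ t : ℤ,
      (r : ℤ) ∣ (q : ℤ) * t + (derivative (pol n (a0 + (q : ℤ) • c))).eval m :=
    fun c => hsol _ _ hcop
  choose s hs using hs
  choose t ht using ht
  choose B hB1 hB2 using fun c : Fin (n - 1) → ℤ => hB (s c) (t c)
  set Φ : (Σ _ : Fin (n - 1) → ℤ, Fin (2 * k - 1) → ℤ) → (Fin (n - 1) → ℤ) :=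
    fun x => a0 + (q : ℤ) • (x.1 + SF.FAM.ext x.2) with hΦ
  set S : Finset (Σ _ : Fin (n - 1) → ℤ, Fin (2 * k - 1) → ℤ) := (top n k V).sigma B with hS
  have hq0 : (q : ℤ) ≠ 0 := by
    have : q ≠ 0 := by omega
    exact_mod_cast this
  have hinj : Set.InjOn Φ S := by
    rintro ⟨c, b⟩ hx ⟨c', b'⟩ hx' h
    rw [Finset.mem_coe, hS, Finset.mem_sigma] at hx hx'
    simp only at hx hx'
    have h1 : c + SF.FAM.ext b = c' + SF.FAM.ext b' := by
      have h2 : a0 + (q : ℤ) • (c + SF.FAM.ext b) = a0 + (q : ℤ) • (c' + SF.FAM.ext b') := h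
      exact smul_right_injective _ hq0 (add_left_cancel h2)
    have hc := Fintype.mem_piFinset.1 hx.1
    have hc' := Fintype.mem_piFinset.1 hx'.1
    have h3 : ∀ i : Fin (n - 1), c i = c' i ∧ (SF.FAM.ext b : Fin (n - 1) → ℤ) i = SF.FAM.ext b' i := by
      intro i
      have h4 := congrFun h1 i
      simp only [Pi.add_apply] at h4
      by_cases hi : (i : ℕ) < 2 * k - 1
      · have h5 := hc i
        have h6 := hc' i
        rw [if_pos hi, Finset.mem_singleton] at h5 h6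
        rw [h5, h6] at h4
        refine ⟨by rw [h5, h6], by linarith⟩
      · have h5 : (SF.FAM.ext b : Fin (n - 1) → ℤ) i = 0 := by rw [SF.FAM.ext, dif_neg hi]
        have h6 : (SF.FAM.ext b' : Fin (n - 1) → ℤ) i = 0 := by rw [SF.FAM.ext, dif_neg hi]
        rw [h5, h6] at h4
        refine ⟨by linarith, by rw [h5, h6]⟩
    have hcc : c = c' := funext fun i => (h3 i).1
    have hbb : b = b' := by
      funext j
      have hj := j.2
      have h4 := (h3 ⟨(j : ℕ), by omega⟩).2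
      simp only [SF.FAM.ext, hj, dif_pos] at h4
      exact h4
    rw [hcc, hbb]
  refine ⟨S.image Φ, ?_, ?_⟩
  · rw [Finset.card_image_of_injOn hinj, hS, Finset.card_sigma, pow_add, ← card_top n k V hk hn,
      Finset.mul_sum, ← smul_eq_mul, ← Finset.sum_const]
    apply Finset.sum_le_sum
    intro c _
    exact hB1 c
  · intro a ha
    rw [Finset.mem_image] at ha
    obtain ⟨⟨c, b⟩, hx, rfl⟩ := ha
    rw [hS, Finset.mem_sigma] at hx
    simp only at hx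
    have hc := Fintype.mem_piFinset.1 hx.1
    obtain ⟨hb1, hb2, hb3⟩ := hB2 c b hx.2
    have hVR : (1 : ℝ) ≤ V := by exact_mod_cast hV
    refine ⟨?_, ?_, ?_, ?_⟩
    · intro i
      have hp : (1 : ℝ) ≤ (V : ℝ) ^ (2 * (n - (i : ℕ))) := one_le_pow₀ hVR
      have h1 : |(((c + (SF.FAM.ext b : Fin (n - 1) → ℤ)) i : ℤ) : ℝ)| ≤ (C₁ + 1) * (V : ℝ) ^ (2 * (n - (i : ℕ))) := by
        rw [Pi.add_apply]
        by_cases hi : (i : ℕ) < 2 * k - 1
        · have h5 := hc i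
          rw [if_pos hi, Finset.mem_singleton] at h5
          rw [h5, zero_add, SF.FAM.ext, dif_pos hi]
          have h6 := hb1 ⟨(i : ℕ), hi⟩
          simp only at h6
          refine h6.trans ?_
          apply mul_le_mul_of_nonneg_right _ (by positivity)
          linarith
        · have h5 := hc i
          rw [if_neg hi, Finset.mem_Ico] at h5
          rw [SF.FAM.ext, dif_neg hi, add_zero, abs_of_nonneg (by exact_mod_cast h5.1)]
          have h6 : ((c i : ℤ) : ℝ) ≤ (V : ℝ) ^ (2 * (n - (i : ℕ))) := by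
            exact_mod_cast h5.2.le
          refine h6.trans ?_
          nlinarith
      have h2 : ((Φ ⟨c, b⟩ i - a0 i : ℤ) : ℝ) = q * (((c + (SF.FAM.ext b : Fin (n - 1) → ℤ)) i : ℤ) : ℝ) := by
        simp only [hΦ, Pi.add_apply, Pi.smul_apply, smul_eq_mul]
        push_cast
        ring
      rw [h2, abs_mul, Nat.abs_cast, mul_assoc]
      exact mul_le_mul_of_nonneg_left h1 (Nat.cast_nonneg _)
    · intro i
      refine ⟨(c + (SF.FAM.ext b : Fin (n - 1) → ℤ)) i, ?_⟩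
      simp only [hΦ, Pi.add_apply, Pi.smul_apply, smul_eq_mul]
      ring
    · have h1 : (pol n (Φ ⟨c, b⟩)).eval m =
          ((q : ℤ) * s c + (pol n (a0 + (q : ℤ) • c)).eval m) + (q : ℤ) * (ev b m - s c) := by
        rw [pol_eval, pol_eval]
        have h2 : Φ ⟨c, b⟩ = a0 + (q : ℤ) • c + (q : ℤ) • SF.FAM.ext b := by
          simp only [hΦ, smul_add]
          abel
        rw [h2, ev_add, ev_smul, ev_ext hn]
        ring
      rw [h1]
      exact dvd_add (hs c) (Dvd.dvd.mul_left hb2 _)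
    · have h1 : (derivative (pol n (Φ ⟨c, b⟩))).eval m =
          ((q : ℤ) * t c + (derivative (pol n (a0 + (q : ℤ) • c))).eval m) +
            (q : ℤ) * (dv b m - t c) := by
        rw [pol_deriv, pol_deriv]
        have h2 : Φ ⟨c, b⟩ = a0 + (q : ℤ) • c + (q : ℤ) • SF.FAM.ext b := by
          simp only [hΦ, smul_add]
          abel
        rw [h2, dv_add, dv_smul, dv_ext hn]
        ring
      rw [h1]
      exact dvd_add (ht c) (Dvd.dvd.mul_left hb3 _)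

theorem t_FAMG (hGM : S_GM) (hCO : S_CO) (hPR : S_PR) : S_FAMG := by
  classical
  intro n k q hk hn hq a00 hirr0
  obtain ⟨K, hK, V₂, hGM'⟩ := hGM n k hk hn
  obtain ⟨C₁, hC₁, hCO'⟩ := hCO n k hk hn K hK
  obtain ⟨e, he⟩ : ∃ e, e = k * (n + 1 - k) := ⟨_, rfl⟩
  have he1 : 1 ≤ e := by
    rw [he]
    have : 1 ≤ n + 1 - k := by omega
    nlinarith
  obtain ⟨V₃, hPR'⟩ := hPR e he1
  have hq0 : (0 : ℝ) < q := by exact_mod_cast hq
  have hqz : (q : ℤ) ≠ 0 := by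
    have : q ≠ 0 := by omega
    exact_mod_cast this
  have hqz0 : (0 : ℤ) < q := by exact_mod_cast hq
  have hCpos0 : 0 < q * (C₁ + 2) := by positivity
  refine ⟨q * (C₁ + 2), hCpos0, ?_⟩
  intro K₀ hK₀
  have hCpos : 0 < K₀ + q * (C₁ + 2) := by positivity
  obtain ⟨V₁, hmult⟩ := mult (by omega : 4 ≤ n) (K₀ + q * (C₁ + 2)) hCpos
  refine ⟨V₁ + V₂ + V₃ + q + 512 * n ^ 3 + 2, ?_⟩
  intro V hV g hg
  obtain ⟨a0, ha0⟩ : ∃ a0 : Fin (n - 1) → ℤ, a0 = fun i => a00 i + q * ((g i - a00 i) / q) := ⟨_, rfl⟩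
  have hcls : ∀ a : Fin (n - 1) → ℤ, (∀ i, (q : ℤ) ∣ a i - a0 i) → Cls q a00 a := by
    intro a ha i
    have h1 := ha i
    rw [ha0] at h1
    simp only at h1
    have h2 : a i - a00 i = (a i - (a00 i + q * ((g i - a00 i) / q))) + q * ((g i - a00 i) / q) := by ring
    rw [h2]
    exact dvd_add h1 (Dvd.intro _ rfl)
  have hdist : ∀ i, |((a0 i - g i : ℤ) : ℝ)| ≤ q := by
    intro i
    have h1 := Int.emod_nonneg (g i - a00 i) hqz
    have h2 := Int.emod_lt_of_pos (g i - a00 i) hqz0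
    have h3 := Int.emod_add_mul_ediv (g i - a00 i) q
    have h4 : a0 i - g i = -((g i - a00 i) % q) := by
      rw [ha0]
      simp only
      linarith
    rw [h4]
    push_cast
    rw [abs_neg, abs_of_nonneg (by exact_mod_cast h1)]
    exact_mod_cast h2.le
  have hirr : ∀ a : Fin (n - 1) → ℤ, (∀ i, (q : ℤ) ∣ a i - a0 i) → Irreducible (polQ n a) :=
    fun a ha => hirr0 a (hcls a ha)
  have hsz : ∀ a : Fin (n - 1) → ℤ, 1 ≤ V →
      (∀ i, |((a i - a0 i : ℤ) : ℝ)| ≤ (q * (C₁ + 1)) * (V : ℝ) ^ (2 * (n - (i : ℕ)))) →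
      (∀ i, |((a i - g i : ℤ) : ℝ)| ≤ (q * (C₁ + 2)) * (V : ℝ) ^ (2 * (n - (i : ℕ)))) ∧
      (∀ i, |((a i : ℤ) : ℝ)| ≤ (K₀ + q * (C₁ + 2)) * (V : ℝ) ^ (2 * (n - (i : ℕ)))) := by
    intro a hV1 ha
    have hVR : (1 : ℝ) ≤ V := by exact_mod_cast hV1
    have h0 : ∀ i, |((a i - g i : ℤ) : ℝ)| ≤ (q * (C₁ + 2)) * (V : ℝ) ^ (2 * (n - (i : ℕ))) := by
      intro i
      have hp : (1 : ℝ) ≤ (V : ℝ) ^ (2 * (n - (i : ℕ))) := one_le_pow₀ hVR
      have h1 : ((a i - g i : ℤ) : ℝ) = ((a i - a0 i : ℤ) : ℝ) + ((a0 i - g i : ℤ) : ℝ) := by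
        push_cast
        ring
      rw [h1]
      refine (abs_add_le _ _).trans ?_
      have h2 : (q : ℝ) ≤ q * (V : ℝ) ^ (2 * (n - (i : ℕ))) := le_mul_of_one_le_right hq0.le hp
      calc _ ≤ (q * (C₁ + 1)) * (V : ℝ) ^ (2 * (n - (i : ℕ))) + q * (V : ℝ) ^ (2 * (n - (i : ℕ))) :=
            add_le_add (ha i) ((hdist i).trans h2)
        _ = _ := by ring
    refine ⟨h0, fun i => ?_⟩
    have h1 : ((a i : ℤ) : ℝ) = ((g i : ℤ) : ℝ) + ((a i - g i : ℤ) : ℝ) := by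
      push_cast
      ring
    rw [h1]
    refine (abs_add_le _ _).trans ?_
    calc _ ≤ K₀ * (V : ℝ) ^ (2 * (n - (i : ℕ))) + (q * (C₁ + 2)) * (V : ℝ) ^ (2 * (n - (i : ℕ))) :=
          add_le_add (hg i) (h0 i)
      _ = _ := by ring
  rw [← he]
  have hV1 : 1 ≤ V := by omega
  have hVe : V ≤ V ^ e := Nat.le_self_pow (by omega) _
  set Pr := (Finset.Ioc (V ^ e) (4 * V ^ e)).filter Nat.Prime with hPr
  have hPrc : V ^ (e - 1) ≤ Pr.card := hPR' V (by omega)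
  have hPr' : ∀ r, r ∈ Pr → r.Prime ∧ V ^ e < r ∧ r ≤ 4 * V ^ e := by
    intro r hr
    rw [hPr, Finset.mem_filter, Finset.mem_Ioc] at hr
    exact ⟨hr.2, hr.1.1, hr.1.2⟩
  have hG : ∀ r : ℕ, r ∈ Pr → ∃ G : Finset ℕ, G ⊆ Finset.range r ∧ r ≤ 2 * G.card ∧
      ∀ m ∈ G, Short k n V r K (m : ℤ) := by
    intro r hr
    obtain ⟨h1, h2, h3⟩ := hPr' r hr
    exact hGM' V r (by omega) h1 (by rw [← he]; exact h2) (by rw [← he]; exact h3)
  choose! G hG1 hG2 hG3 using hG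
  set Q : Finset (ℕ × ℕ) := (Pr.sigma G).image (fun x => (x.1, x.2)) with hQdef
  have hQ : ∀ x : ℕ × ℕ, x ∈ Q → x.1 ∈ Pr ∧ x.2 ∈ G x.1 := by
    intro x hx
    rw [hQdef, Finset.mem_image] at hx
    obtain ⟨y, hy, rfl⟩ := hx
    exact Finset.mem_sigma.1 hy
  have hQc : V ^ (e - 1) * V ^ e ≤ 2 * Q.card := by
    rw [hQdef, Finset.card_image_of_injective, Finset.card_sigma, Finset.mul_sum]
    · calc V ^ (e - 1) * V ^ e ≤ Pr.card * V ^ e := Nat.mul_le_mul_right _ hPrc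
        _ = ∑ _r ∈ Pr, V ^ e := by rw [Finset.sum_const, smul_eq_mul]
        _ ≤ ∑ r ∈ Pr, 2 * (G r).card := by
            apply Finset.sum_le_sum
            intro r hr
            exact (hPr' r hr).2.1.le.trans (hG2 r hr)
    · rintro ⟨a, b⟩ ⟨c, d⟩ h
      simp only [Prod.mk.injEq] at h
      obtain ⟨rfl, rfl⟩ := h
      rfl
  have hA : ∀ x : ℕ × ℕ, x ∈ Q → ∃ A : Finset (Fin (n - 1) → ℤ),
      V ^ ((n + 1 - 2 * k) * (n + 2 - 2 * k) - 2 + (k - 2) * (n + 1 - k)) ≤ 64 * A.card ∧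
      ∀ a ∈ A, (∀ i, |((a i - a0 i : ℤ) : ℝ)| ≤ (q * (C₁ + 1)) * (V : ℝ) ^ (2 * (n - (i : ℕ)))) ∧
        (∀ i, (q : ℤ) ∣ a i - a0 i) ∧ (x.1 : ℤ) ^ 2 ∣ (pol n a).eval (x.2 : ℤ) ∧
        (x.1 : ℤ) ∣ (derivative (pol n a)).eval (x.2 : ℤ) := by
    intro x hx
    obtain ⟨h1, h2⟩ := hQ x hx
    obtain ⟨h3, h4, h5⟩ := hPr' x.1 h1
    apply fiber' hk hn hq a0 C₁ hC₁ V x.1 (x.2 : ℤ) hV1
    · rw [Nat.isCoprime_iff_coprime]
      apply Nat.Coprime.symm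
      rw [h3.coprime_iff_not_dvd]
      intro hdvd
      have := Nat.le_of_dvd (by omega) hdvd
      omega
    · exact hCO' V x.1 (x.2 : ℤ) hV1 h3.one_lt.le (by rw [← he]; exact h5) (hG3 x.1 h1 x.2 h2)
  choose! A hA1 hA2 using hA
  have hmem : ∀ a, a ∈ Q.biUnion A → ∃ x ∈ Q, a ∈ A x := by
    intro a ha
    exact Finset.mem_biUnion.1 ha
  have hdc : ∑ x ∈ Q, (A x).card ≤ (Q.biUnion A).card * (4 * n ^ 3) := by
    have h1 := Finset.sum_card_bipartiteAbove_eq_sum_card_bipartiteBelow (s := Q)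
      (t := Q.biUnion A) (fun x a => a ∈ A x)
    have h2 : ∀ x ∈ Q, (Finset.bipartiteAbove (fun x a => a ∈ A x) (Q.biUnion A) x).card =
        (A x).card := by
      intro x hx
      congr 1
      ext a
      rw [Finset.bipartiteAbove, Finset.mem_filter]
      exact ⟨fun h => h.2, fun h => ⟨Finset.mem_biUnion.2 ⟨x, hx, h⟩, h⟩⟩
    rw [← Finset.sum_congr rfl h2, h1]
    rw [← smul_eq_mul]
    apply Finset.sum_le_card_nsmul
    intro a ha
    obtain ⟨x0, hx0, hax0⟩ := hmem a ha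
    obtain ⟨g1, g2, _, _⟩ := hA2 x0 hx0 a hax0
    apply hmult V (by omega) a (hirr a g2) (hsz a hV1 g1).2
    intro x hx
    rw [Finset.bipartiteBelow, Finset.mem_filter] at hx
    obtain ⟨h3, h4⟩ := hx
    obtain ⟨h5, h6⟩ := hQ x h3
    obtain ⟨h7, h8, h9⟩ := hPr' x.1 h5
    obtain ⟨_, _, g3, g4⟩ := hA2 x h3 a h4
    refine ⟨h7, by omega, Finset.mem_range.1 (hG1 x.1 h5 h6), ?_, g4⟩
    exact (Dvd.intro_left (x.1 : ℤ) (by ring)).trans g3
  refine ⟨Q.biUnion A, ?_, ?_⟩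
  · have h1 : V ^ (e - 1) * V ^ e *
        V ^ ((n + 1 - 2 * k) * (n + 2 - 2 * k) - 2 + (k - 2) * (n + 1 - k)) ≤
        128 * ∑ x ∈ Q, (A x).card := by
      calc _ ≤ 2 * Q.card *
            V ^ ((n + 1 - 2 * k) * (n + 2 - 2 * k) - 2 + (k - 2) * (n + 1 - k)) :=
            Nat.mul_le_mul_right _ hQc
        _ = 2 * ∑ _x ∈ Q,
            V ^ ((n + 1 - 2 * k) * (n + 2 - 2 * k) - 2 + (k - 2) * (n + 1 - k)) := by
            rw [Finset.sum_const, smul_eq_mul, mul_assoc]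
        _ ≤ 2 * ∑ x ∈ Q, 64 * (A x).card :=
            Nat.mul_le_mul_left _ (Finset.sum_le_sum fun x hx => hA1 x hx)
        _ = 128 * ∑ x ∈ Q, (A x).card := by
            rw [← Finset.mul_sum, ← mul_assoc]
            norm_num
    have h2 := expo n k hk hn
    rw [← he] at h2
    rw [← pow_add, ← pow_add, h2, pow_succ] at h1
    have h3 : V ^ (n ^ 2 + n - 4 - e) * V ≤ (Q.biUnion A).card * V := by
      calc _ ≤ _ := h1
        _ ≤ 128 * ((Q.biUnion A).card * (4 * n ^ 3)) := Nat.mul_le_mul_left _ hdc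
        _ = (Q.biUnion A).card * (512 * n ^ 3) := by ring
        _ ≤ (Q.biUnion A).card * V := Nat.mul_le_mul_left _ (by omega)
    exact Nat.le_of_mul_le_mul_right h3 (by omega)
  · intro a ha
    obtain ⟨x, hx, hax⟩ := hmem a ha
    obtain ⟨g1, g2, g3, g4⟩ := hA2 x hx a hax
    refine ⟨hcls a g2, (hsz a hV1 g1).1, x.1, x.2, ?_, g3, g4⟩
    exact (hPr' x.1 (hQ x hx).1).2.1


end Pool.Agent.D0H87.SG
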